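import Pool.Agent.H66.WC.Defs

set_option autoImplicit false

open Finset

namespace Pool.Agent.H66.WC

variable {D : Sys}

/-! ### the form -/

theorem qaddl (A : Known D) (X : D.M) (a b c : D.H X) :
    D.Q X (a + b) c = D.Q X a c + D.Q X b c := A.forms.2.1 X a b c

theorem qaddr (A : Known D) (X : D.M) (a b c : D.H X) :
    D.Q X a (b + c) = D.Q X a b + D.Q X a c := by
  rw [A.forms.1, qaddl A, A.forms.1 X b, A.forms.1 X c]

theorem qzl (A : Known D) (X : D.M) (a : D.H X) : D.Q X 0 a = 0 := by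
  have h := qaddl A X 0 0 a
  rw [add_zero] at h
  linarith

theorem qzr (A : Known D) (X : D.M) (a : D.H X) : D.Q X a 0 = 0 := by
  rw [A.forms.1, qzl A]

theorem qsubl (A : Known D) (X : D.M) (a b c : D.H X) :
    D.Q X (a - b) c = D.Q X a c - D.Q X b c := by
  have h := qaddl A X (a - b) b c
  rw [sub_add_cancel] at h
  linarith

theorem qsubr (A : Known D) (X : D.M) (a b c : D.H X) :
    D.Q X a (b - c) = D.Q X a b - D.Q X a c := by
  rw [A.forms.1, qsubl A, A.forms.1 X b, A.forms.1 X c]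

theorem qsmulr (A : Known D) (X : D.M) (a b : D.H X) (n : ℕ) :
    D.Q X a (n • b) = n * D.Q X a b := by
  induction n with
  | zero => rw [zero_smul, qzr A]; simp
  | succ n ih => rw [succ_nsmul, qaddr A, ih]; push_cast; ring

theorem add_sub_map {G G' : Type} [AddCommGroup G] [AddCommGroup G'] {i : G → G'}
    (h : ∀ a b, i (a + b) = i a + i b) (a b : G) : i (a - b) = i a - i b := by
  rw [eq_sub_iff_add_eq, ← h, sub_add_cancel]

/-! ### linear independence of exponentials -/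

/-- the character `h ↦ exp (K h)` -/
noncomputable def chr (A : Known D) (X : D.M) (K : D.H X) : Multiplicative (D.H X) →* ℝ where
  toFun h := Real.exp (D.Q X K (Multiplicative.toAdd h))
  map_one' := by rw [toAdd_one, qzr A, Int.cast_zero, Real.exp_zero]
  map_mul' a b := by
    rw [toAdd_mul, qaddr A, Int.cast_add, Real.exp_add]

theorem chr_inj (A : Known D) (X : D.M) : Function.Injective (chr A X) := by
  intro K K' h
  have h1 : ∀ b, D.Q X K b = D.Q X K' b := by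
    intro b
    have h2 := DFunLike.congr_fun h (Multiplicative.ofAdd b)
    have h3 : Real.exp (D.Q X K b) = Real.exp (D.Q X K' b) := h2
    exact_mod_cast Real.exp_injective h3
  have h4 : K - K' = 0 := A.forms.2.2.1 X _ fun b => by
    rw [qsubl A, h1, sub_self]
  exact sub_eq_zero.1 h4

theorem indep (A : Known D) (X : D.M) (s : Finset (D.H X)) (a : D.H X → ℝ)
    (h : ∀ b, ∑ K ∈ s, a K * Real.exp (D.Q X K b) = 0) : ∀ K ∈ s, a K = 0 := by
  have h1 : LinearIndependent ℝ fun K : D.H X => (chr A X K : Multiplicative (D.H X) → ℝ) :=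
    (linearIndependent_monoidHom (Multiplicative (D.H X)) ℝ).comp _ (chr_inj A X)
  rw [linearIndependent_iff'] at h1
  refine h1 s a ?_
  funext b
  rw [Finset.sum_apply]
  exact h (Multiplicative.toAdd b)

open Polynomial in
/-- a finite sum of geometric sequences with positive ratios which vanishes for `n ≥ 1` -/
theorem geo {ι : Type*} (s : Finset ι) (b x : ι → ℝ) (hx : ∀ i ∈ s, x i ≠ 0)
    (h : ∀ n : ℕ, 1 ≤ n → ∑ i ∈ s, b i * x i ^ n = 0) : ∑ i ∈ s, b i = 0 := by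
  set p : ℝ[X] := ∏ i ∈ s, (X - C (x i)) with hp
  have h0 : p.coeff 0 ≠ 0 := by
    rw [coeff_zero_eq_eval_zero, hp, eval_prod, Finset.prod_ne_zero_iff]
    intro i hi
    rw [eval_sub, eval_X, eval_C, zero_sub]
    exact neg_ne_zero.2 (hx i hi)
  have h1 : ∀ i ∈ s, p.eval (x i) = 0 := by
    intro i hi
    rw [hp, eval_prod]
    exact Finset.prod_eq_zero hi (by simp)
  have h2 : ∑ i ∈ s, b i * p.eval (x i) = 0 :=
    Finset.sum_eq_zero fun i hi => by rw [h1 i hi, mul_zero]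
  have h3 : ∑ i ∈ s, b i * p.eval (x i) = p.coeff 0 * ∑ i ∈ s, b i := by
    have h4 : ∀ i ∈ s, b i * p.eval (x i) =
        ∑ n ∈ range (p.natDegree + 1), p.coeff n * (b i * x i ^ n) := by
      intro i _
      rw [eval_eq_sum_range, Finset.mul_sum]
      refine Finset.sum_congr rfl fun n _ => ?_
      ring
    rw [Finset.sum_congr rfl h4, Finset.sum_comm, Finset.sum_range_succ']
    have h5 : ∑ k ∈ range p.natDegree, ∑ i ∈ s, p.coeff (k + 1) * (b i * x i ^ (k + 1)) = 0 := by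
      refine Finset.sum_eq_zero fun k _ => ?_
      rw [← Finset.mul_sum, h (k + 1) (by omega), mul_zero]
    rw [h5, zero_add, ← Finset.mul_sum]
    congr 1
    refine Finset.sum_congr rfl fun i _ => ?_
    rw [pow_zero, mul_one]
  rw [h3] at h2
  exact (mul_eq_zero.1 h2).resolve_left h0

/-- an exponential sum which vanishes where `S h ≠ 0` vanishes everywhere -/
theorem ext0 (A : Known D) (X : D.M) (S : D.H X) (hS : S ≠ 0) (s : Finset (D.H X))
    (a : D.H X → ℝ) (h : ∀ b, D.Q X S b ≠ 0 → ∑ K ∈ s, a K * Real.exp (D.Q X K b) = 0) :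
    ∀ b, ∑ K ∈ s, a K * Real.exp (D.Q X K b) = 0 := by
  obtain ⟨b0, hb0⟩ : ∃ b, D.Q X S b ≠ 0 := by
    by_contra hcon
    simp only [not_exists, not_not] at hcon
    exact hS (A.forms.2.2.1 X S hcon)
  intro b
  by_cases hb : D.Q X S b = 0
  · refine geo s _ (fun K => Real.exp (D.Q X K b0)) (fun K _ => (Real.exp_pos _).ne') ?_
    intro n hn
    have h1 : D.Q X S (b + n • b0) ≠ 0 := by
      rw [qaddr A, hb, zero_add, qsmulr A]
      exact mul_ne_zero (by exact_mod_cast (by omega : n ≠ 0)) hb0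
    rw [← h _ h1]
    refine Finset.sum_congr rfl fun K _ => ?_
    rw [qaddr A, qsmulr A, Int.cast_add, Real.exp_add, Int.cast_mul,
      Int.cast_natCast, Real.exp_nat_mul, mul_assoc]
  · exact h b hb

/-! ### Witten's formula and proportionality of the coefficients -/

theorem prop_of_witten (A : Known D) {X : D.M} (h : D.Witten X) :
    ∃ c : ℚ, c ≠ 0 ∧ ∀ K, D.β X K = c * D.SW X K := by
  classical
  obtain ⟨h1, -, c, hc, h2⟩ := h
  refine ⟨c, hc, fun K => ?_⟩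
  have h3 : ∀ b, ∑ K ∈ (D.β X).support ∪ (D.SW X).support,
      ((D.β X K : ℝ) - c * D.SW X K) * Real.exp (D.Q X K b) = 0 := by
    intro b
    have h4 := h2 0 b
    rw [A.str X h1 0 b] at h4
    have he : Real.exp ((D.Q X b b : ℝ) / 2) ≠ 0 := (Real.exp_pos _).ne'
    have h5 : ∑ K ∈ (D.β X).support, (D.β X K : ℝ) * Real.exp (D.Q X K b) =
        c * ∑ K ∈ (D.SW X).support, (D.SW X K : ℝ) * Real.exp (D.Q X K b) := by
      apply mul_left_cancel₀ he
      rw [mul_left_comm]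
      have e1 : ∀ K, (-1 : ℝ) ^ ((D.Q X (0 : D.H X) 0 + D.Q X K 0) / 2) = 1 := by
        intro K
        rw [qzr A, qzr A, add_zero]
        simp
      simp only [e1, mul_one] at h4
      exact h4
    have h6 : ∑ K ∈ (D.β X).support ∪ (D.SW X).support,
        (D.β X K : ℝ) * Real.exp (D.Q X K b) =
        ∑ K ∈ (D.β X).support, (D.β X K : ℝ) * Real.exp (D.Q X K b) := by
      symm
      refine Finset.sum_subset Finset.subset_union_left fun K _ hK => ?_
      rw [Finsupp.notMem_support_iff.1 hK, Rat.cast_zero, zero_mul]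
    have h7 : ∑ K ∈ (D.β X).support ∪ (D.SW X).support,
        (D.SW X K : ℝ) * Real.exp (D.Q X K b) =
        ∑ K ∈ (D.SW X).support, (D.SW X K : ℝ) * Real.exp (D.Q X K b) := by
      symm
      refine Finset.sum_subset Finset.subset_union_right fun K _ hK => ?_
      rw [Finsupp.notMem_support_iff.1 hK, Int.cast_zero, zero_mul]
    have h8 : ∀ K, ((D.β X K : ℝ) - c * D.SW X K) * Real.exp (D.Q X K b) =
        (D.β X K : ℝ) * Real.exp (D.Q X K b) - c * ((D.SW X K : ℝ) * Real.exp (D.Q X K b)) := by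
      intro K; ring
    simp only [h8]
    rw [Finset.sum_sub_distrib, ← Finset.mul_sum, h6, h7, h5, sub_self]
  by_cases hK : K ∈ (D.β X).support ∪ (D.SW X).support
  · have h4 := indep A X _ _ h3 K hK
    have h5 : (D.β X K : ℝ) = ((c * D.SW X K : ℚ) : ℝ) := by
      push_cast
      linarith
    exact_mod_cast h5
  · rw [Finset.mem_union, not_or] at hK
    rw [Finsupp.notMem_support_iff.1 hK.1, Finsupp.notMem_support_iff.1 hK.2, Int.cast_zero,
      mul_zero]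

theorem witten_of_prop (hstr : StructureThm D) {X : D.M} (h1 : D.DST X) {c : ℚ} (hc : c ≠ 0)
    (h : ∀ K, D.β X K = c * D.SW X K) : D.Witten X := by
  have hiff : ∀ K, D.β X K ≠ 0 ↔ D.SW X K ≠ 0 := by
    intro K
    rw [h K]
    constructor
    · intro h2 h3
      exact h2 (by rw [h3, Int.cast_zero, mul_zero])
    · intro h2
      exact mul_ne_zero hc (Int.cast_ne_zero.2 h2)
  refine ⟨h1, hiff, c, hc, fun w b => ?_⟩
  rw [hstr X h1 w b, mul_left_comm]
  congr 1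
  have hs : (D.β X).support = (D.SW X).support := by
    ext K
    rw [Finsupp.mem_support_iff, Finsupp.mem_support_iff]
    exact hiff K
  rw [hs, Finset.mul_sum]
  refine Finset.sum_congr rfl fun K _ => ?_
  rw [h K]
  push_cast
  ring

/-! ### iterated blow-up -/

theorem blown (A : Known D) (X : D.M) (n : ℕ) :
    ∃ (Y : D.M) (i : D.H X → D.H Y) (E : D.H Y),
      (∀ a b, i (a + b) = i a + i b) ∧
      (∀ a b, D.Q Y (i a) (i b) = D.Q X a b) ∧ (∀ a, D.Q Y (i a) E = 0) ∧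
      D.Q Y E E = -n ∧ D.e Y = D.e X + n ∧ D.σ Y = D.σ X - n ∧ (1 ≤ n → D.sph Y) ∧
      (1 ≤ n → ∃ w, (∀ a, D.Q Y w (i a) = 0) ∧ D.Q Y w E = -1) ∧
      (∀ S g, D.emb X S g → D.emb Y (i S) g ∧ D.emb Y (i S - E) g) ∧
      (D.DST X → D.DST Y ∧ ∀ K, D.β Y (i K + E) = D.β X K / 2 ^ n) ∧
      (D.SST X → D.SST Y ∧ ∀ K, D.SW Y (i K + E) = D.SW X K) := by
  induction n with
  | zero =>
    refine ⟨X, fun a => a, 0, fun _ _ => rfl, fun _ _ => rfl, fun a => qzr A X a,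
      by rw [qzr A]; simp, by simp, by simp, by simp, by simp,
      fun S g h => ⟨h, by simpa using h⟩, fun h => ⟨h, fun K => by simp⟩,
      fun h => ⟨h, fun K => by simp⟩⟩
  | succ n ih =>
    obtain ⟨Y, i, E, h0, h1, h2, h3, h4, h5, -, -, h7, h8, h9⟩ := ih
    obtain ⟨Z, j, F, ⟨k0, k1, k2, k3, k4, k5, k6, k7, k8, k9⟩⟩ := A.blow Y
    have k2' : ∀ a, D.Q Z F (j a) = 0 := fun a => by rw [A.forms.1, k2]
    refine ⟨Z, fun a => j (i a), j E + F, ?_, ?_, ?_, ?_, ?_, ?_, fun _ => k6,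
      fun _ => ⟨F, ?_, ?_⟩, ?_, ?_, ?_⟩
    · intro a b
      dsimp only
      rw [h0, k0]
    · intro a b
      rw [k1, h1]
    · intro a
      rw [qaddr A, k1, h2, k2, add_zero]
    · rw [qaddl A, qaddr A, qaddr A, k1, h3, k2, k2', k3]
      push_cast; ring
    · rw [k4, h4]; push_cast; ring
    · rw [k5, h5]; push_cast; ring
    · intro a
      rw [k2']
    · rw [qaddr A, k2', k3, zero_add]
    · intro S g hS
      obtain ⟨l1, l2⟩ := h7 S g hS
      refine ⟨(k7 _ g l1).1, ?_⟩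
      have := (k7 _ g l2).2
      rw [add_sub_map k0] at this
      rw [← sub_sub]
      exact this
    · intro h
      obtain ⟨l1, l2⟩ := h8 h
      obtain ⟨m1, m2⟩ := k8 l1
      refine ⟨m1, fun K => ?_⟩
      rw [← add_assoc, ← k0, m2, l2, pow_succ, div_div]
    · intro h
      obtain ⟨l1, l2⟩ := h9 h
      obtain ⟨m1, m2⟩ := k9 l1
      refine ⟨m1, fun K => ?_⟩
      rw [← add_assoc, ← k0, m2, l2]

/-! ### extremal parts -/

theorem fac_ne {g : ℕ} {t : ℤ} (h : g ≠ 1 ∨ t ≠ 0) : fac g t ≠ 0 := by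
  unfold fac
  by_cases hg : g = 1
  · rw [if_pos hg]
    have ht : t ≠ 0 := by
      rcases h with h | h
      · exact absurd hg h
      · exact h
    refine pow_ne_zero 2 (sub_ne_zero.2 fun he => ht ?_)
    have h1 := Real.exp_injective he
    have h2 : (t : ℝ) = 0 := by linarith
    exact_mod_cast h2
  · rw [if_neg hg]
    exact (Real.exp_pos _).ne'

theorem eD_prop {X : D.M} {S : D.H X} {g : ℕ} {c : ℚ} (hc : c ≠ 0)
    (h : ∀ K, D.β X K = c * D.SW X K) (b : D.H X) : D.eD X S g b = c * D.eS X S g b := by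
  unfold Sys.eD Sys.eS
  have hs : (D.β X).support = (D.SW X).support := by
    ext K
    rw [Finsupp.mem_support_iff, Finsupp.mem_support_iff, h K]
    constructor
    · intro h2 h3
      exact h2 (by rw [h3, Int.cast_zero, mul_zero])
    · intro h2
      exact mul_ne_zero hc (Int.cast_ne_zero.2 h2)
  rw [hs, Finset.mul_sum]
  refine Finset.sum_congr rfl fun K _ => ?_
  split_ifs
  · rw [h K]; push_cast; ring
  · rw [mul_zero]

/-- the extremal parts are proportional if they are so where `S h ≠ 0` (any `h` for `g ≥ 2`) -/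
theorem coef_of_ext (A : Known D) {X : D.M} {S : D.H X} (hS : S ≠ 0) {g : ℕ} {c : ℚ}
    (h : ∀ b, D.Q X S b ≠ 0 → D.eD X S g b = c * D.eS X S g b) :
    ∀ K, D.Q X K S = 2 * g - 2 → D.β X K = c * D.SW X K := by
  classical
  set s := (D.β X).support ∪ (D.SW X).support with hs
  set a : D.H X → ℝ := fun K => if D.Q X K S = 2 * g - 2 then
    (D.β X K : ℝ) - c * D.SW X K else 0 with ha
  have h1 : ∀ b, D.Q X S b ≠ 0 → ∑ K ∈ s, a K * Real.exp (D.Q X K b) = 0 := by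
    intro b hb
    have h2 := h b hb
    unfold Sys.eD Sys.eS at h2
    have h6 : ∑ K ∈ s, (if D.Q X K S = 2 * g - 2 then
        (D.β X K : ℝ) * Real.exp (D.Q X K b) else 0) =
        ∑ K ∈ (D.β X).support, (if D.Q X K S = 2 * g - 2 then
        (D.β X K : ℝ) * Real.exp (D.Q X K b) else 0) := by
      symm
      refine Finset.sum_subset Finset.subset_union_left fun K _ hK => ?_
      rw [Finsupp.notMem_support_iff.1 hK, Rat.cast_zero, zero_mul, ite_self]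
    have h7 : ∑ K ∈ s, (if D.Q X K S = 2 * g - 2 then
        (D.SW X K : ℝ) * Real.exp (D.Q X K b) else 0) =
        ∑ K ∈ (D.SW X).support, (if D.Q X K S = 2 * g - 2 then
        (D.SW X K : ℝ) * Real.exp (D.Q X K b) else 0) := by
      symm
      refine Finset.sum_subset Finset.subset_union_right fun K _ hK => ?_
      rw [Finsupp.notMem_support_iff.1 hK, Int.cast_zero, zero_mul, ite_self]
    have h8 : ∀ K, a K * Real.exp (D.Q X K b) =
        (if D.Q X K S = 2 * g - 2 then (D.β X K : ℝ) * Real.exp (D.Q X K b) else 0) -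
        c * (if D.Q X K S = 2 * g - 2 then (D.SW X K : ℝ) * Real.exp (D.Q X K b) else 0) := by
      intro K
      rw [ha]
      dsimp only
      split_ifs
      · ring
      · ring
    simp only [h8]
    rw [Finset.sum_sub_distrib, ← Finset.mul_sum, h6, h7, h2, sub_self]
  have h2 := indep A X s a (ext0 A X S hS s a h1)
  intro K hK
  by_cases hKs : K ∈ s
  · have h3 := h2 K hKs
    rw [ha] at h3
    dsimp only at h3
    rw [if_pos hK] at h3
    have h5 : (D.β X K : ℝ) = ((c * D.SW X K : ℚ) : ℝ) := by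
      push_cast
      linarith
    exact_mod_cast h5
  · rw [hs, Finset.mem_union, not_or] at hKs
    rw [Finsupp.notMem_support_iff.1 hKs.1, Finsupp.notMem_support_iff.1 hKs.2, Int.cast_zero,
      mul_zero]

/-! ### the numbers -/

/-- Euler number and signature of the hypersurface of degree `2 k` -/
def HN (k : ℕ) (ed sd : ℤ) : Prop := ed = (2 * k : ℤ) ^ 3 - 4 * (2 * k) ^ 2 + 6 * (2 * k) ∧
  3 * sd = -((2 * k : ℤ) ^ 3 - 4 * (2 * k))

theorem hn (k : ℕ) : ∃ ed sd f : ℤ, HN k ed sd ∧ ed + sd = 4 * f ∧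
    3 * f = 4 * (k : ℤ) ^ 3 - 12 * k ^ 2 + 11 * k ∧
    2 * ed + 3 * sd = 8 * (k : ℤ) ^ 3 - 32 * k ^ 2 + 32 * k := by
  obtain ⟨r, hr⟩ : (3 : ℤ) ∣ (k : ℤ) ^ 3 - k := by
    have h1 : ((k : ℤ) % 3 = 0 ∨ (k : ℤ) % 3 = 1) ∨ (k : ℤ) % 3 = 2 := by omega
    have h2 : (k : ℤ) ^ 3 - k = (k - 1) * k * (k + 1) := by ring
    rw [h2]
    rcases h1 with (h1 | h1) | h1
    · obtain ⟨m, hm⟩ : (3 : ℤ) ∣ k := Int.dvd_of_emod_eq_zero h1
      exact ⟨(k - 1) * m * (k + 1), by rw [hm]; ring⟩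
    · obtain ⟨m, hm⟩ : (3 : ℤ) ∣ k - 1 := by omega
      exact ⟨m * k * (k + 1), by rw [hm]; ring⟩
    · obtain ⟨m, hm⟩ : (3 : ℤ) ∣ k + 1 := by omega
      exact ⟨(k - 1) * k * m, by rw [hm]; ring⟩
  refine ⟨(2 * k : ℤ) ^ 3 - 4 * (2 * k) ^ 2 + 6 * (2 * k), -(8 * r),
    2 * k ^ 3 - 4 * k ^ 2 + 3 * k - 2 * r, ⟨rfl, ?_⟩, by ring, ?_, ?_⟩
  · have : (2 * k : ℤ) ^ 3 - 4 * (2 * k) = 8 * ((k : ℤ) ^ 3 - k) := by ring
    rw [this, hr]; ring
  · have : 3 * (2 * r) = 2 * ((k : ℤ) ^ 3 - k) := by rw [hr]; ring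
    linarith
  · have : 3 * (8 * r) = 8 * ((k : ℤ) ^ 3 - k) := by rw [hr]; ring
    linarith

/-- choice of the degrees of the hypersurfaces -/
theorem numbers (e σ N₀ N₁ g : ℤ) (h4 : (4 : ℤ) ∣ e + σ) :
    ∃ (k : ℕ) (N N' ed sd ed' sd' : ℤ), 3 ≤ k ∧ HN k ed sd ∧ HN (k + 1) ed' sd' ∧
      N₀ ≤ N ∧ N₁ ≤ N' ∧
      4 * N = ed + sd - (e + σ) - 4 * (g - 1) ∧ 4 * N' = ed' + sd' - 4 * N - 4 * (g - 1) ∧
      2 * ed + 3 * sd + 1 ≤ 2 * e + 3 * σ + 7 * N + 8 * (g - 1) ∧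
      2 * ed' + 3 * sd' + 1 ≤ 7 * N + 8 * (g - 1) := by
  obtain ⟨x, hx⟩ := h4
  -- `x = χ_h`
  set k : ℕ := 15 + (N₀ + x + (g - 1)).natAbs + (N₁ - x).natAbs +
    (7 * x - (2 * e + 3 * σ) - (g - 1) + 1).natAbs + (7 * x - (g - 1) + 1).natAbs with hk
  have hk3 : (15 : ℤ) ≤ k := by omega
  have hkA : N₀ + x + (g - 1) ≤ k := by omega
  have hkB : N₁ - x ≤ k := by omega
  have hkC : 7 * x - (2 * e + 3 * σ) - (g - 1) + 1 ≤ k := by omega
  have hkD : 7 * x - (g - 1) + 1 ≤ k := by omega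
  clear_value k
  obtain ⟨ed, sd, f, q1, q2, q3, q4⟩ := hn k
  obtain ⟨ed', sd', f', p1, p2, p3, p4⟩ := hn (k + 1)
  push_cast at p3 p4
  have hkk : 0 ≤ (k : ℤ) * (k - 15) := mul_nonneg (by linarith) (by linarith)
  have hkkk : 0 ≤ (k : ℤ) * ((k : ℤ) * (k - 15)) := mul_nonneg (by linarith) hkk
  refine ⟨k, f - x - (g - 1), f' - f + x, ed, sd, ed', sd', by omega, q1, p1, ?_, ?_, ?_, ?_, ?_,
    ?_⟩
  · -- `f ≥ k`
    have : 3 * (k : ℤ) ≤ 3 * f := by rw [q3]; nlinarith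
    linarith
  · have : 3 * (k : ℤ) ≤ 3 * (f' - f) := by
      have : 3 * (f' - f) = 12 * (k : ℤ) ^ 2 - 12 * k + 3 := by
        rw [mul_sub, p3, q3]; ring
      rw [this]; nlinarith
    linarith
  · rw [q2, hx]; ring
  · rw [p2]; ring
  · have : 3 * (k : ℤ) ≤ 3 * (7 * f - (2 * ed + 3 * sd)) := by
      have : 3 * (7 * f - (2 * ed + 3 * sd)) = 4 * (k : ℤ) ^ 3 + 12 * k ^ 2 - 19 * k := by
        rw [mul_sub, q4, show 3 * (7 * f) = 7 * (3 * f) by ring, q3]; ring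
      rw [this]; nlinarith
    linarith
  · have : 3 * (k : ℤ) ≤ 3 * (7 * f - (2 * ed' + 3 * sd')) := by
      have : 3 * (7 * f - (2 * ed' + 3 * sd')) =
          4 * (k : ℤ) ^ 3 - 60 * k ^ 2 + 101 * k - 24 := by
        rw [mul_sub, p4, show 3 * (7 * f) = 7 * (3 * f) by ring, q3]; ring
      rw [this]; nlinarith
    linarith

/-! ### the main step -/

/-- the sum has the numbers of a blow-down of a hypersurface: the extremal parts of the summands
satisfy Witten's formula together -/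
theorem pairing (A : Known D) {X₁ X₂ : D.M} {S₁ : D.H X₁} {S₂ T : D.H X₂} {g : ℕ} (hg : 1 ≤ g)
    (he : D.emb X₁ S₁ g) (hd : D.dis X₂ S₂ g T 1) (h1 : D.Q X₁ S₁ S₁ = 0)
    (h2 : D.Q X₂ S₂ S₂ = 0) (hT : D.Q X₂ T T = 0) (ho1 : D.Oddc X₁ S₁) (ho2 : D.Oddc X₂ S₂)
    (hD1 : D.DST X₁) (hD2 : D.DST X₂) (hS1 : D.SST X₁) (hS2 : D.SST X₂)
    (hb : ∃ b, D.Q X₂ T b ≠ 0 ∧ D.Q X₂ S₂ b = 0) {k : ℕ} {ed sd : ℤ} (hk : 3 ≤ k)
    (hH : HN k ed sd)
    (hsum : D.e X₁ + D.e X₂ + 4 * (g - 1) + (D.σ X₁ + D.σ X₂) = ed + sd)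
    (hsl : 2 * ed + 3 * sd + 1 ≤
      2 * (D.e X₁ + D.e X₂ + 4 * (g - 1)) + 3 * (D.σ X₁ + D.σ X₂)) :
    ∃ c : ℚ, c ≠ 0 ∧ ∀ a₁ a₂, D.Q X₁ S₁ a₁ = D.Q X₂ S₂ a₂ → D.Q X₁ S₁ a₁ ≠ 0 →
      D.eD X₁ S₁ g a₁ * D.eD X₂ S₂ g a₂ = c * (D.eS X₁ S₁ g a₁ * D.eS X₂ S₂ g a₂) := by
  obtain ⟨W, SW', T', j, ⟨w1, w2, t1, t2, t3, w4, w5⟩⟩ :=
    A.sum g 1 X₁ X₂ S₁ S₂ T hg he hd ⟨h1, ho1⟩ ⟨h2, ho2⟩ ⟨hD1, hS1⟩ ⟨hD2, hS2⟩
  obtain ⟨b, hb1, hb2⟩ := hb
  have hT' : T' ≠ 0 := by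
    rintro rfl
    have h := t3 0 b (by rw [qzr A, hb2])
    rw [qzl A] at h
    exact hb1 h.symm
  have htW : D.Tight W T' 1 := ⟨le_rfl, t1, by rw [t2, hT]; norm_num, hT'⟩
  have hDW := (A.tight W T' 1 htW).1
  have hSW' := (A.tight W T' 1 htW).2
  -- blow up to the numbers of a hypersurface
  obtain ⟨m, hm⟩ : ∃ m : ℕ, D.σ W - sd = m := by
    refine ⟨(D.σ W - sd).toNat, ?_⟩
    have : 0 ≤ D.σ W - sd := by rw [w2]; linarith
    omega
  have hm1 : 1 ≤ m := by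
    have : (1 : ℤ) ≤ m := by rw [← hm, w2]; linarith
    exact_mod_cast this
  obtain ⟨V, l, F, -, v1, v2, v3, v4, v5, v6, -, v7, v8, v9⟩ := blown A W m
  obtain ⟨hDV, vβ⟩ := v8 hDW
  obtain ⟨hSV, vS⟩ := v9 hSW'
  have htV : D.Tight V (l T') 1 := by
    refine ⟨le_rfl, (v7 T' 1 t1).1, by rw [v1, t2, hT]; norm_num, fun h => hT' ?_⟩
    apply A.forms.2.2.1 W
    intro a
    rw [← v1, h, qzl A]
  have hWV : D.Witten V := by
    refine A.km V (l T') 1 (2 * k) htV (v6 hm1) (even_two_mul k) (by omega) ?_ ?_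
    · rw [v4, ← hm, w1, w2]
      push_cast
      linarith [hH.1]
    · rw [v5, ← hm]
      push_cast
      linarith [hH.2]
  obtain ⟨cV, hcV, hpV⟩ := prop_of_witten A hWV
  have hpW : ∀ K, D.β W K = (cV * 2 ^ m) * D.SW W K := by
    intro K
    have h10 := hpV (l K + F)
    rw [vβ, vS] at h10
    rw [div_eq_iff (by positivity)] at h10
    rw [h10]; ring
  obtain ⟨C, hC, hCe⟩ := w4 hDW
  obtain ⟨C', hC', hCe'⟩ := w5 hSW'
  have hcW : cV * 2 ^ m ≠ 0 := mul_ne_zero hcV (by positivity)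
  refine ⟨cV * 2 ^ m * C' / C, div_ne_zero (mul_ne_zero hcW hC') hC, ?_⟩
  intro a₁ a₂ ha ha0
  have q1 := hCe a₁ a₂ ha
  have q2 := hCe' a₁ a₂ ha
  rw [eD_prop hcW hpW, q2] at q1
  have hf : fac g (D.Q X₁ S₁ a₁) ≠ 0 := fac_ne (Or.inr ha0)
  have hCR : (C : ℝ) ≠ 0 := by exact_mod_cast hC
  push_cast at q1 ⊢
  rw [div_mul_eq_mul_div, eq_div_iff hCR]
  apply mul_right_cancel₀ hf
  linear_combination -q1

theorem extremal (A : Known D) (X : D.M) (S : D.H X) (g : ℕ) (hg : 1 ≤ g) (he : D.emb X S g)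
    (hS : S ≠ 0) (hn : 0 ≤ D.Q X S S) (hodd : 1 ≤ D.Q X S S ∨ D.Oddc X S) (hD : D.DST X)
    (hW : D.SST X) :
    ∃ c : ℚ, c ≠ 0 ∧ ∀ K, D.Q X K S + D.Q X S S = 2 * g - 2 → D.β X K = c * D.SW X K := by
  -- blow up to square zero
  obtain ⟨n, hn'⟩ : ∃ n : ℕ, D.Q X S S = n := ⟨(D.Q X S S).toNat, by omega⟩
  obtain ⟨Y, i, E, -, h1, h2, h3, h4, h5, -, h6, h7, h8, h9⟩ := blown A X n
  obtain ⟨hDY, hβ⟩ := h8 hD
  obtain ⟨hWY, hSW⟩ := h9 hW
  have h2' : ∀ a, D.Q Y E (i a) = 0 := fun a => by rw [A.forms.1, h2]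
  set S' : D.H Y := i S - E with hS'
  have heY : D.emb Y S' g := (h7 S g he).2
  have hsq : D.Q Y S' S' = 0 := by
    rw [hS', qsubr A, qsubl A, qsubl A, h1, h2, h2', h3, hn']
    ring
  have hoddY : D.Oddc Y S' := by
    rcases hodd with hodd | ⟨w, hw⟩
    · obtain ⟨w, w1, w2⟩ := h6 (by omega)
      refine ⟨w, ?_⟩
      rw [hS', qsubr A, w1, w2]
      decide
    · refine ⟨i w, ?_⟩
      rw [hS', qsubr A, h1, h2, sub_zero]
      exact hw
  have hS'0 : S' ≠ 0 := by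
    rintro h
    obtain ⟨w, hw⟩ := hoddY
    rw [h, qzr A] at hw
    exact absurd hw (by decide)
  -- the building blocks
  obtain ⟨N₀, hN₀⟩ := A.slope g hg
  obtain ⟨N₁, hN₁⟩ := A.ell g hg
  obtain ⟨k, N, N', ed, sd, ed', sd', hk3, hH, hH', hNN, hNN', h4N, h4N', hcc, hcc'⟩ :=
    numbers (D.e Y) (D.σ Y) N₀ N₁ g (A.forms.2.2.2 Y)
  obtain ⟨Z, SZ, T, ⟨hDZ, hSZ⟩, hz1, hz2, hdZ, ⟨hqZ, hoZ⟩, hqT, hb, hne⟩ := hN₀ N hNN
  obtain ⟨U, SU, hWU, hSU, hu1, hu2, heU, ⟨hqU, hoU⟩, hneU⟩ := hN₁ N' hNN'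
  obtain ⟨cU, hcU, hpU⟩ := prop_of_witten A hWU
  obtain ⟨c₁, hc₁, hp₁⟩ := pairing A hg heU hdZ hqU hqZ hqT hoU hoZ hWU.1 hDZ hSU hSZ hb
    (by omega : 3 ≤ k + 1) hH' (by linarith) (by linarith)
  obtain ⟨c₂, hc₂, hp₂⟩ := pairing A hg heY hdZ hsq hqZ hqT hoddY hoZ hDY hDZ hWY hSZ hb
    hk3 hH (by linarith) (by linarith)
  have hUR : (cU : ℝ) ≠ 0 := by exact_mod_cast hcU
  have h1R : (c₁ : ℝ) ≠ 0 := by exact_mod_cast hc₁
  have h2R : (c₂ : ℝ) ≠ 0 := by exact_mod_cast hc₂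
  -- the extremal part of `Z`
  have hZ : ∀ a, D.Q Z SZ a ≠ 0 → D.eD Z SZ g a = (c₁ / cU : ℝ) * D.eS Z SZ g a := by
    intro a ha
    obtain ⟨a2, ha2, hnz⟩ := hneU (D.Q Z SZ a) ha
    have q1 := hp₁ a2 a ha2 (by rw [ha2]; exact ha)
    rw [eD_prop hcU hpU] at q1
    rw [div_mul_eq_mul_div, eq_div_iff hUR]
    apply mul_right_cancel₀ hnz
    linear_combination q1
  -- cancellation
  have hfin : ∀ a, D.Q Y S' a ≠ 0 →
      D.eD Y S' g a = ((c₂ / (c₁ / cU) : ℚ) : ℝ) * D.eS Y S' g a := by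
    intro a ha
    obtain ⟨a2, ha2, hnz⟩ := hne (D.Q Y S' a) ha
    have q1 := hp₂ a a2 ha2.symm ha
    rw [hZ a2 (by rw [ha2]; exact ha)] at q1
    push_cast
    rw [div_mul_eq_mul_div, eq_div_iff (div_ne_zero h1R hUR)]
    apply mul_right_cancel₀ hnz
    linear_combination q1
  have hcoef := coef_of_ext A hS'0 hfin
  refine ⟨2 ^ n * (c₂ / (c₁ / cU)), ?_, ?_⟩
  · exact mul_ne_zero (by positivity) (div_ne_zero hc₂ (div_ne_zero hc₁ hcU))
  · intro K hK
    have h10 : D.Q Y (i K + E) S' = 2 * g - 2 := by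
      rw [hS', qsubr A, qaddl A, qaddl A, h1, h2, h2', h3, ← hK, hn']
      ring
    have h11 := hcoef _ h10
    rw [hβ, hSW, div_eq_iff (by positivity)] at h11
    rw [h11]; ring

theorem tight (A : Known D) (X : D.M) (S : D.H X) (g : ℕ) (h : D.Tight X S g)
    (hodd : 2 ≤ g ∨ D.Oddc X S) : D.Witten X := by
  obtain ⟨hg, he, hq, hS⟩ := id h
  have hD := (A.tight X S g h).1
  have hW := (A.tight X S g h).2
  have hn : 0 ≤ D.Q X S S := by rw [hq]; omega
  obtain ⟨c, hc, hK⟩ := extremal A X S g hg he hS hn (by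
    rcases hodd with hodd | hodd
    · left; rw [hq]; omega
    · right; exact hodd) hD hW
  refine witten_of_prop A.str hD hc fun K => ?_
  by_cases h0 : D.Q X K S = 0
  · exact hK K (by rw [h0, hq, zero_add])
  · have h1 : D.β X K = 0 := by
      by_contra hcon
      have := A.adj X S g hg he hS hn K (Or.inl ⟨hD, hcon⟩)
      rw [hq] at this
      have h2 : |D.Q X K S| ≤ 0 := by linarith
      exact h0 (abs_eq_zero.1 (le_antisymm h2 (abs_nonneg _)))
    have h2 : D.SW X K = 0 := by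
      by_contra hcon
      have := A.adj X S g hg he hS hn K (Or.inr hcon)
      rw [hq] at this
      have h2 : |D.Q X K S| ≤ 0 := by linarith
      exact h0 (abs_eq_zero.1 (le_antisymm h2 (abs_nonneg _)))
    rw [h1, h2, Int.cast_zero, mul_zero]

end Pool.Agent.H66.WC
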