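import Mathlib

/-!
# MP_307c8f_gt: an abstract system of 4-manifolds with Donaldson and Seiberg-Witten invariants

`Sys` is the data: a collection `M` of (names of) manifolds, for each of them its second homology
modulo torsion with the intersection form, the Euler number, the signature, the Donaldson series,
the coefficients of the Donaldson basic classes, the Seiberg-Witten invariants (the group is
identified with the second cohomology modulo torsion by Poincare duality) and the classes which are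
represented by embedded surfaces of a given genus. `Known` is a list of properties; for smooth
4-manifolds with `b₁ = 0` and `b⁺ > 1` odd all of them are published theorems.
-/

set_option autoImplicit false

namespace Pool.Agent.H66.WC

/-- The data. -/
structure Sys where
  /-- the manifolds -/
  M : Type 1
  /-- second homology modulo torsion -/
  H : M → Type
  [grp : ∀ X, AddCommGroup (H X)]
  /-- the intersection form -/
  Q : ∀ X, H X → H X → ℤ
  /-- the Euler number -/
  e : M → ℤ
  /-- the signature -/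
  σ : M → ℤ
  /-- Donaldson simple type -/
  DST : M → Prop
  /-- the Donaldson series `don X w h` -/
  don : ∀ X, H X → H X → ℝ
  /-- the coefficients of the Donaldson basic classes -/
  β : ∀ X, H X →₀ ℚ
  /-- the Seiberg-Witten invariants -/
  SW : ∀ X, H X →₀ ℤ
  /-- `emb X S g`: some smoothly embedded closed surface of genus `g` represents the class `S` -/
  emb : ∀ X, H X → ℕ → Prop
  /-- `dis X S g T γ`: some disjoint smoothly embedded closed surfaces of genus `g` and `γ`
  represent `S` and `T` -/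
  dis : ∀ X, H X → ℕ → H X → ℕ → Prop
  /-- the manifold contains an embedded sphere of square `-1` -/
  sph : M → Prop

attribute [instance] Sys.grp

namespace Sys

variable (D : Sys)

/-- Seiberg-Witten simple type -/
def SST (X : D.M) : Prop := ∀ K, D.SW X K ≠ 0 → D.Q X K K = 2 * D.e X + 3 * D.σ X

/-- `S` is the class of a tight surface of genus `g`: embedded, `g ≥ 1`, square `2 g - 2`, and the
class is not torsion -/
def Tight (X : D.M) (S : D.H X) (g : ℕ) : Prop :=
  1 ≤ g ∧ D.emb X S g ∧ D.Q X S S = 2 * g - 2 ∧ S ≠ 0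

/-- the class has odd intersection number with some class -/
def Oddc (X : D.M) (S : D.H X) : Prop := ∃ w, Odd (D.Q X w S)

/-- Witten's formula (Q1) for the manifold `X`: it is of Donaldson simple type, the basic classes
are the same, and there is a nonzero rational number `c` with
`D^w(h) = c exp(Q(h) / 2) ∑ SW(K) (-1) ^ ((w² + K w) / 2) exp(K h)` for all `w` and `h` -/
def Witten (X : D.M) : Prop := D.DST X ∧ (∀ K, D.β X K ≠ 0 ↔ D.SW X K ≠ 0) ∧
  ∃ c : ℚ, c ≠ 0 ∧ ∀ w h, D.don X w h = c * (Real.exp ((D.Q X h h : ℝ) / 2) *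
    ∑ K ∈ (D.SW X).support, (D.SW X K : ℝ) *
      (-1 : ℝ) ^ ((D.Q X w w + D.Q X K w) / 2) * Real.exp (D.Q X K h))

/-- the part of the Donaldson series (without signs and without the factor `exp(Q(h) / 2)`) which
belongs to the basic classes with the largest value `2 g - 2` on `S` -/
noncomputable def eD (X : D.M) (S : D.H X) (g : ℕ) (h : D.H X) : ℝ :=
  ∑ K ∈ (D.β X).support, if D.Q X K S = 2 * g - 2 then
    (D.β X K : ℝ) * Real.exp (D.Q X K h) else 0

/-- the same for the Seiberg-Witten invariants -/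
noncomputable def eS (X : D.M) (S : D.H X) (g : ℕ) (h : D.H X) : ℝ :=
  ∑ K ∈ (D.SW X).support, if D.Q X K S = 2 * g - 2 then
    (D.SW X K : ℝ) * Real.exp (D.Q X K h) else 0

end Sys

/-- the factor in the product formulas -/
noncomputable def fac (g : ℕ) (t : ℤ) : ℝ :=
  if g = 1 then (Real.exp t - Real.exp (-t)) ^ 2 else Real.exp (2 * t)

/-- the form is symmetric, bilinear and nondegenerate; `e + σ = 2 (1 + b⁺)` is divisible by
four -/
def Forms (D : Sys) : Prop := (∀ X a b, D.Q X a b = D.Q X b a) ∧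
  (∀ X a b c, D.Q X (a + b) c = D.Q X a c + D.Q X b c) ∧
  (∀ X a, (∀ b, D.Q X a b = 0) → a = 0) ∧ ∀ X, (4 : ℤ) ∣ D.e X + D.σ X

/-- structure theorem of Kronheimer and Mrowka for manifolds of Donaldson simple type -/
def StructureThm (D : Sys) : Prop := ∀ X, D.DST X → ∀ w h,
  D.don X w h = Real.exp ((D.Q X h h : ℝ) / 2) *
    ∑ K ∈ (D.β X).support, (D.β X K : ℝ) *
      (-1 : ℝ) ^ ((D.Q X w w + D.Q X K w) / 2) * Real.exp (D.Q X K h)

/-- a manifold with a tight surface is of Donaldson and of Seiberg-Witten simple type -/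
def TightSimple (D : Sys) : Prop := ∀ X S g, D.Tight X S g → D.DST X ∧ D.SST X

/-- adjunction inequalities: for an embedded surface of genus `g ≥ 1` in a class `S` which is not
torsion, `S² ≥ 0`, and every basic class `K` one has `S² + |K S| ≤ 2 g - 2` -/
def Adjunction (D : Sys) : Prop := ∀ X S g, 1 ≤ g → D.emb X S g → S ≠ 0 → 0 ≤ D.Q X S S →
  ∀ K, (D.DST X ∧ D.β X K ≠ 0) ∨ D.SW X K ≠ 0 → D.Q X S S + |D.Q X K S| ≤ 2 * g - 2

/-- `Y` is the blow-up of `X` at a point, `i` is the inclusion of the second homology and `E` the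
exceptional class; an embedded surface persists, or is blown up at one of its points; blow-up
formulas -/
structure IsBlowUp (D : Sys) (X Y : D.M) (i : D.H X → D.H Y) (E : D.H Y) : Prop where
  add : ∀ a b, i (a + b) = i a + i b
  form : ∀ a b, D.Q Y (i a) (i b) = D.Q X a b
  orth : ∀ a, D.Q Y (i a) E = 0
  sq : D.Q Y E E = -1
  euler : D.e Y = D.e X + 1
  sign : D.σ Y = D.σ X - 1
  sph : D.sph Y
  emb : ∀ S g, D.emb X S g → D.emb Y (i S) g ∧ D.emb Y (i S - E) g
  don : D.DST X → D.DST Y ∧ ∀ K, D.β Y (i K + E) = D.β X K / 2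
  sw : D.SST X → D.SST Y ∧ ∀ K, D.SW Y (i K + E) = D.SW X K

/-- every manifold can be blown up -/
def BlowUps (D : Sys) : Prop := ∀ X, ∃ (Y : D.M) (i : D.H X → D.H Y) (E : D.H Y),
  IsBlowUp D X Y i E

/-- product formula for the extremal parts `f`, `f₁`, `f₂` of the series of a sum and of its
summands: `j h₁ h₂` is a class glued from `h₁` and `h₂`, which meet the surfaces in the same number
of points -/
def ProductFormula {A B C : Type} (g : ℕ) (s₁ : A → ℤ) (s₂ : B → ℤ) (j : A → B → C)
    (f₁ : A → ℝ) (f₂ : B → ℝ) (f : C → ℝ) : Prop :=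
  ∃ c : ℚ, c ≠ 0 ∧ ∀ h₁ h₂, s₁ h₁ = s₂ h₂ →
    f (j h₁ h₂) = c * (fac g (s₁ h₁) * (f₁ h₁ * f₂ h₂))

/-- an embedded surface of genus `g ≥ 1` and square zero in an odd class -/
def Sys.Fib (D : Sys) (X : D.M) (S : D.H X) : Prop := D.Q X S S = 0 ∧ D.Oddc X S

/-- both simple types -/
def Sys.Simple (D : Sys) (X : D.M) : Prop := D.DST X ∧ D.SST X

/-- `W` is a connected sum of `X₁` and `X₂` along surfaces of genus `g` in the classes `S₁`, `S₂`,
and `T'` is the class of a surface of genus `γ` in the complement of the second surface, where its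
class is `T` -/
structure IsSum (D : Sys) (g γ : ℕ) (X₁ X₂ : D.M) (S₁ : D.H X₁) (S₂ T : D.H X₂) (W : D.M)
    (S T' : D.H W) (j : D.H X₁ → D.H X₂ → D.H W) : Prop where
  euler : D.e W = D.e X₁ + D.e X₂ + 4 * (g - 1)
  sign : D.σ W = D.σ X₁ + D.σ X₂
  emb : D.emb W T' γ
  sq : D.Q W T' T' = D.Q X₂ T T
  meet : ∀ h₁ h₂, D.Q X₁ S₁ h₁ = D.Q X₂ S₂ h₂ → D.Q W T' (j h₁ h₂) = D.Q X₂ T h₂
  don : D.DST W → ProductFormula g (D.Q X₁ S₁) (D.Q X₂ S₂) j (D.eD X₁ S₁ g) (D.eD X₂ S₂ g)
    (D.eD W S g)
  sw : D.SST W → ProductFormula g (D.Q X₁ S₁) (D.Q X₂ S₂) j (D.eS X₁ S₁ g) (D.eS X₂ S₂ g)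
    (D.eS W S g)

/-- connected sums along surfaces of square zero exist, with the product formulas (Munoz; Morgan,
Szabo and Taubes; for `g = 1` Floer's excision and Morgan, Mrowka and Szabo) -/
def Sums (D : Sys) : Prop := ∀ (g γ : ℕ) (X₁ X₂ : D.M) (S₁ : D.H X₁) (S₂ T : D.H X₂), 1 ≤ g →
  D.emb X₁ S₁ g → D.dis X₂ S₂ g T γ → D.Fib X₁ S₁ → D.Fib X₂ S₂ → D.Simple X₁ → D.Simple X₂ →
  ∃ (W : D.M) (S T' : D.H W) (j : D.H X₁ → D.H X₂ → D.H W),
    IsSum D g γ X₁ X₂ S₁ S₂ T W S T' j

/-- the theorem of Kronheimer and Mrowka quoted in the problem file: Witten's formula in the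
presence of a tight surface and a sphere of square `-1` if the Euler number and the signature
are those of a hypersurface of even degree `d ≥ 6` -/
def KronheimerMrowka (D : Sys) : Prop := ∀ X S g (d : ℕ), D.Tight X S g → D.sph X → Even d →
  6 ≤ d → D.e X = d ^ 3 - 4 * d ^ 2 + 6 * d → 3 * D.σ X = -(d ^ 3 - 4 * d) → D.Witten X

/-- the part of the Seiberg-Witten series which is extremal on `S` does not vanish identically on
the classes `h` with `S h = t`, for every `t ≠ 0` -/
def Sys.Ext (D : Sys) (X : D.M) (S : D.H X) (g : ℕ) : Prop :=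
  ∀ t : ℤ, t ≠ 0 → ∃ h, D.Q X S h = t ∧ D.eS X S g h ≠ 0

/-- elliptic examples: for every `g ≥ 1` and all large `N` there is a manifold with
`e + σ = 4 N`, `2 e + 3 σ = 0` for which Witten's formula is known and which contains a surface
of genus `g` and square zero in an odd class which is extremal for some basic class
(`E(2 g)`, summed with `E(N - 2 g)` along a torus of another nucleus) -/
def Elliptic (D : Sys) : Prop := ∀ g : ℕ, 1 ≤ g → ∃ N₀ : ℤ, ∀ N : ℤ, N₀ ≤ N →
  ∃ (Z : D.M) (S : D.H Z), D.Witten Z ∧ D.SST Z ∧ D.e Z + D.σ Z = 4 * N ∧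
    2 * D.e Z + 3 * D.σ Z = 0 ∧ D.emb Z S g ∧ D.Fib Z S ∧ D.Ext Z S g

/-- symplectic examples of high slope: for every `g ≥ 1` and all large `N` there is a manifold
of simple type with `e + σ = 4 N`, `2 e + 3 σ ≥ 7 N` (so `c₁² ≥ 7 χ_h`) which contains disjoint
surfaces `S` of genus `g` and `T` of genus one, both of square zero, `S` in an odd class which is
extremal for some Seiberg-Witten basic class, `T` with a dual class orthogonal to `S` -/
def Slope (D : Sys) : Prop := ∀ g : ℕ, 1 ≤ g → ∃ N₀ : ℤ, ∀ N : ℤ, N₀ ≤ N →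
  ∃ (Z : D.M) (S T : D.H Z), D.Simple Z ∧ D.e Z + D.σ Z = 4 * N ∧
    7 * N ≤ 2 * D.e Z + 3 * D.σ Z ∧ D.dis Z S g T 1 ∧ D.Fib Z S ∧ D.Q Z T T = 0 ∧
    (∃ b, D.Q Z T b ≠ 0 ∧ D.Q Z S b = 0) ∧ D.Ext Z S g

/-- The properties which are used. For closed oriented smooth 4-manifolds with `b₁ = 0` and
`b⁺ > 1` odd they are published theorems. -/
structure Known (D : Sys) : Prop where
  forms : Forms D
  str : StructureThm D
  tight : TightSimple D
  adj : Adjunction D
  blow : BlowUps D
  sum : Sums D
  km : KronheimerMrowka D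
  ell : Elliptic D
  slope : Slope D

end Pool.Agent.H66.WC
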